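import Pool.Agent.Helper626.Rand.SW

set_option autoImplicit false

/-!
# sw-reducibility between quotients of a random real by natural numbers
-/

namespace Pool.Agent.Y537.OM

open Pool.Agent.Helper626 Pool.Agent.Helper626.Rand MeasureTheory

theorem pre_natdiv (z : ℝ) (m n : ℕ) : pre (z / m) n = pre z n / m := by
  unfold pre
  have h : (2 : ℝ) ^ n * (z / m) = (2 ^ n * z) / ((m : ℕ) : ℝ) := by ring
  rw [h, Nat.floor_div_natCast]

/-- the first `n` digits are computed correctly -/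
def good (h : ℕ →. ℕ) (a b c n A : ℕ) : Prop :=
  ∀ j, j < n → A / a / 2 ^ (n + c - 1 - j) % 2 ∈ h (Nat.pair j (A / b / 2 ^ (n - 1 - j)))

theorem good_down {h : ℕ →. ℕ} {a b c n d A : ℕ} (hg : good h a b c (n + d) A) :
    good h a b c n (A / 2 ^ d) := by
  intro j hj
  have h1 := hg j (by omega)
  have key : ∀ m i i' : ℕ, i' = d + i → A / m / 2 ^ i' = A / 2 ^ d / m / 2 ^ i := by
    rintro m i i' rfl
    rw [Nat.div_div_eq_div_mul, Nat.div_div_eq_div_mul, Nat.div_div_eq_div_mul, pow_add]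
    congr 1
    ring
  rwa [key a (n + c - 1 - j) (n + d + c - 1 - j) (by omega),
    key b (n - 1 - j) (n + d - 1 - j) (by omega)] at h1

theorem not_both {h : ℕ →. ℕ} {a b c n k : ℕ} (hn : 0 < n) (ha : 0 < a)
    (hk : ¬ b ∣ k * (a * 2 ^ c))
    (h1 : good h a b c n (k * (a * 2 ^ c))) (h2 : good h a b c n (k * (a * 2 ^ c) - 1)) :
    False := by
  have h3 := h1 (n - 1) (by omega)
  have h4 := h2 (n - 1) (by omega)
  have h5 : n + c - 1 - (n - 1) = c := by omega
  have h6 : n - 1 - (n - 1) = 0 := by omega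
  rw [h5, h6, pow_zero, Nat.div_one, Nat.div_div_eq_div_mul] at h3 h4
  obtain ⟨E, hE⟩ : ∃ E, E = a * 2 ^ c := ⟨_, rfl⟩
  have hE0 : 0 < E := by rw [hE]; positivity
  rw [← hE] at h3 h4 hk
  have hk0 : 0 < k := by
    rcases Nat.eq_zero_or_pos k with h | h
    · rw [h, Nat.zero_mul] at hk
      exact absurd (dvd_zero b) hk
    · exact h
  obtain ⟨M, hM⟩ : ∃ M, k * E = M + 1 :=
    Nat.exists_eq_succ_of_ne_zero (Nat.mul_pos hk0 hE0).ne'
  rw [hM] at h3 h4 hk
  rw [Nat.add_sub_cancel] at h4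
  have h7 : (M + 1) / b = M / b := by
    rw [Nat.succ_div, if_neg hk, Nat.add_zero]
  rw [h7] at h3
  have h8 := Part.mem_unique h3 h4
  have h9 : (M + 1) / E = M / E + 1 := by
    rw [Nat.succ_div, if_pos ⟨k, by rw [← hM, Nat.mul_comm]⟩]
  rw [h9] at h8
  omega

open Classical in
theorem card_step (h : ℕ →. ℕ) {a b c e : ℕ} (n : ℕ) (ha : 0 < a) (he : 3 * a ≤ 2 ^ e)
    (hab : ¬ b ∣ a * 2 ^ c) :
    ((Finset.range (a * 2 ^ (n + (c + e) + c))).filter (good h a b c (n + (c + e)))).card ≤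
      (2 ^ (c + e) - 1) * ((Finset.range (a * 2 ^ (n + c))).filter (good h a b c n)).card := by
  refine Finset.card_le_mul_card_image_of_maps_to (f := fun A => A / 2 ^ (c + e)) ?_ _ ?_
  · intro A hA
    rw [Finset.mem_filter, Finset.mem_range] at hA ⊢
    refine ⟨?_, good_down hA.2⟩
    rw [Nat.div_lt_iff_lt_mul (by positivity), Nat.mul_assoc, ← pow_add]
    have : n + c + (c + e) = n + (c + e) + c := by ring
    rw [this]
    exact hA.1
  · intro β _
    obtain ⟨E, hE⟩ : ∃ E, E = a * 2 ^ c := ⟨_, rfl⟩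
    have hE0 : 0 < E := by rw [hE]; positivity
    have h3E : 3 * E ≤ 2 ^ (c + e) := by
      rw [hE, pow_add]
      calc 3 * (a * 2 ^ c) = 2 ^ c * (3 * a) := by ring
        _ ≤ 2 ^ c * 2 ^ e := Nat.mul_le_mul_left _ he
    obtain ⟨Q, hQ⟩ : ∃ Q, Q = β * 2 ^ (c + e) := ⟨_, rfl⟩
    have hQ2 : (β + 1) * 2 ^ (c + e) = Q + 2 ^ (c + e) := by rw [hQ]; ring
    have hdm := Nat.div_add_mod Q E
    have hml := Nat.mod_lt Q hE0
    obtain ⟨k, hkb, hk1, hk2⟩ : ∃ k, ¬ b ∣ k * E ∧ Q < k * E ∧ k * E ≤ Q + 2 * E := by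
      by_cases h1 : b ∣ (Q / E + 1) * E
      · refine ⟨Q / E + 2, fun h2 => hab ?_, ?_, ?_⟩
        · have h3 : (Q / E + 2) * E = (Q / E + 1) * E + E := by ring
          rw [h3] at h2
          rw [← hE]
          exact (Nat.dvd_add_right h1).1 h2
        · have : (Q / E + 2) * E = E * (Q / E) + 2 * E := by ring
          omega
        · have : (Q / E + 2) * E = E * (Q / E) + 2 * E := by ring
          omega
      · refine ⟨Q / E + 1, h1, ?_, ?_⟩
        · have : (Q / E + 1) * E = E * (Q / E) + E := by ring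
          omega
        · have : (Q / E + 1) * E = E * (Q / E) + E := by ring
          omega
    obtain ⟨w, hw1, hw2, hw3⟩ : ∃ w, Q ≤ w ∧ w < Q + 2 ^ (c + e) ∧
        ¬ good h a b c (n + (c + e)) w := by
      have hpos : 0 < n + (c + e) := by
        have : e ≠ 0 := by
          rintro rfl
          simp at he
          omega
        omega
      by_cases h1 : good h a b c (n + (c + e)) (k * E)
      · refine ⟨k * E - 1, by omega, by omega, fun h2 => ?_⟩
        rw [hE] at h1 h2 hkb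
        exact not_both hpos ha hkb h1 h2
      · exact ⟨k * E, by omega, by omega, h1⟩
    have h6 : (((Finset.range (a * 2 ^ (n + (c + e) + c))).filter
        (good h a b c (n + (c + e)))).filter (fun A => A / 2 ^ (c + e) = β)) ⊆
        (Finset.Ico Q (Q + 2 ^ (c + e))).erase w := by
      intro A
      simp only [Finset.mem_filter, Finset.mem_erase, Finset.mem_Ico]
      rintro ⟨⟨_, h7⟩, h8⟩
      refine ⟨fun h9 => hw3 (h9 ▸ h7), ?_, ?_⟩
      · rw [hQ, ← h8]
        exact Nat.div_mul_le_self _ _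
      · rw [← hQ2, ← Nat.div_lt_iff_lt_mul (by positivity), h8]
        omega
    refine (Finset.card_le_card h6).trans ?_
    rw [Finset.card_erase_of_mem (Finset.mem_Ico.2 ⟨hw1, hw2⟩), Nat.card_Ico]
    omega

open Classical in
theorem card_bound (h : ℕ →. ℕ) {a b c e : ℕ} (j : ℕ) (ha : 0 < a) (he : 3 * a ≤ 2 ^ e)
    (hab : ¬ b ∣ a * 2 ^ c) :
    ((Finset.range (a * 2 ^ (j * (c + e) + c))).filter (good h a b c (j * (c + e)))).card ≤
      (2 ^ (c + e) - 1) ^ j * (a * 2 ^ c) := by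
  induction j with
  | zero =>
    refine (Finset.card_filter_le _ _).trans ?_
    simp
  | succ j ih =>
    have h1 := card_step h (j * (c + e)) ha he hab
    have h2 : (j + 1) * (c + e) = j * (c + e) + (c + e) := by ring
    rw [h2]
    refine h1.trans ?_
    rw [pow_succ (2 ^ (c + e) - 1) j, Nat.mul_comm _ (2 ^ (c + e) - 1), Nat.mul_assoc]
    exact Nat.mul_le_mul_left _ ih

/-- the reals with good prefixes -/
def goodSet (h : ℕ →. ℕ) (a b c n : ℕ) : Set ℝ :=
  {z | ∃ A, A < a * 2 ^ (n + c) ∧ good h a b c n A ∧ z ∈ dyadic (n + c) A}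

theorem volume_goodSet (h : ℕ →. ℕ) {a b c e : ℕ} (j : ℕ) (ha : 0 < a) (he : 3 * a ≤ 2 ^ e)
    (hab : ¬ b ∣ a * 2 ^ c) :
    volume (goodSet h a b c (j * (c + e))) ≤
      ENNReal.ofReal (a * (1 - (1 / 2) ^ (c + e)) ^ j) := by
  classical
  have h0 : goodSet h a b c (j * (c + e)) ⊆ ⋃ A ∈ (Finset.range (a * 2 ^ (j * (c + e) + c))).filter
      (good h a b c (j * (c + e))), dyadic (j * (c + e) + c) A := by
    rintro z ⟨A, hA, hg, hz⟩
    simp only [Set.mem_iUnion]
    exact ⟨A, Finset.mem_filter.2 ⟨Finset.mem_range.2 hA, hg⟩, hz⟩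
  refine (measure_mono h0).trans ((measure_biUnion_finset_le _ _).trans ?_)
  simp only [volume_dyadic, Finset.sum_const, nsmul_eq_mul]
  rw [← ENNReal.ofReal_natCast, ← ENNReal.ofReal_mul (by positivity)]
  refine ENNReal.ofReal_le_ofReal ?_
  have h1 := card_bound h j ha he hab
  have h2 : ((((Finset.range (a * 2 ^ (j * (c + e) + c))).filter
      (good h a b c (j * (c + e)))).card : ℕ) : ℝ) ≤
      (2 ^ (c + e) - 1) ^ j * (a * 2 ^ c) := by
    have h3 : ((((Finset.range (a * 2 ^ (j * (c + e) + c))).filter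
      (good h a b c (j * (c + e)))).card : ℕ) : ℝ) ≤
        (((2 ^ (c + e) - 1) ^ j * (a * 2 ^ c) : ℕ) : ℝ) := by exact_mod_cast h1
    rw [Nat.cast_mul, Nat.cast_pow, Nat.cast_sub Nat.one_le_two_pow] at h3
    push_cast at h3
    exact h3
  have h3 : (0 : ℝ) < (1 / 2) ^ (j * (c + e) + c) := by positivity
  refine (mul_le_mul_of_nonneg_right h2 h3.le).trans (le_of_eq ?_)
  have h4 : ((1 : ℝ) / 2) ^ (j * (c + e) + c) = ((1 / 2) ^ (c + e)) ^ j * (1 / 2) ^ c := by
    rw [pow_add, Nat.mul_comm, pow_mul]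
  rw [h4]
  have h5 := half_pow_mul c
  have h6 := half_pow_mul (c + e)
  have h7 : (1 : ℝ) - (1 / 2) ^ (c + e) = (2 ^ (c + e) - 1) * (1 / 2) ^ (c + e) := by
    rw [sub_mul, h6, one_mul]
  rw [h7, mul_pow]
  generalize ((2 : ℝ) ^ (c + e) - 1) ^ j = A
  generalize (((1 : ℝ) / 2) ^ (c + e)) ^ j = B
  generalize (2 : ℝ) ^ c = C at h5 ⊢
  generalize ((1 : ℝ) / 2) ^ c = D at h5 ⊢
  calc A * (a * C) * (B * D) = a * (A * B) * (C * D) := by ring
    _ = _ := by rw [h5, mul_one]

theorem good_S1 {h : ℕ →. ℕ} (hh : Partrec h) (a b c : ℕ) {n : ℕ} {F G : (Fin n → ℕ) → ℕ}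
    (hF : CF F) (hG : CF G) : S1 true (fun v => good h a b c (F v) (G v)) := by
  have h2 := S1.of_partrec (e := true) (Partrec.nat_iff.1 hh)
  refine S1_ball hF ?_
  have h3 := S1_sub h2 (n := n + 1) (F := ![fun w => Nat.pair (w (Fin.last n))
      (G (Fin.init w) / b / 2 ^ (F (Fin.init w) - 1 - w (Fin.last n))),
    fun w => G (Fin.init w) / a / 2 ^ (F (Fin.init w) + c - 1 - w (Fin.last n)) % 2]) (by
      intro i
      fin_cases i
      · exact CF.last.pair ((hG.init.div (CF.const b)).div ((CF.const 2).pow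
          ((hF.init.sub (CF.const 1)).sub CF.last)))
      · exact ((hG.init.div (CF.const a)).div ((CF.const 2).pow (((hF.init.add (CF.const c)).sub
          (CF.const 1)).sub CF.last))).mod (CF.const 2))
  exact h3

theorem le_two_pow (a : ℕ) : a ≤ 2 ^ a := Nat.lt_two_pow_self.le

/-- **Quotients by natural numbers.** If `z` is random and `b` divides no `a 2 ^ k`, then
`z / a` is not sw-reducible to `z / b`. -/
theorem not_SWle {z : ℝ} {a b : ℕ} (hz0 : 0 ≤ z) (ha : 0 < a) (hza : z < a)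
    (hab : ∀ k, ¬ b ∣ a * 2 ^ k) (hr : MLRandom z) : ¬ SWle (z / a) (z / b) := by
  rintro ⟨c, f, hf, hcorr⟩
  have hh := hfun_partrec c hf
  set h := hfun c f
  have hgood : ∀ n, good h a b c n (pre z (n + c)) := by
    intro n j hj
    have h1 := hcorr j
    have h2 : pre z (n + c) / a / 2 ^ (n + c - 1 - j) = pre (z / a) (j + 1) := by
      rw [← pre_natdiv]
      have := pre_div' (z := z / a) (show j + 1 ≤ n + c by omega)
      rw [← this]
      congr 2
      omega
    have h3 : pre z (n + c) / b / 2 ^ (n - 1 - j) = pre (z / b) (j + c + 1) := by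
      rw [← pre_natdiv]
      have := pre_div' (z := z / b) (show j + c + 1 ≤ n + c by omega)
      rw [← this]
      congr 2
      omega
    rw [h2, h3]
    change _ ∈ Part.map _ _
    rw [Part.mem_map_iff]
    refine ⟨bit (z / a) j, ?_, ?_⟩
    · have h4 : (List.range (j + c + 1)).map
          (fun p => decide (pre (z / b) (j + c + 1) / 2 ^ (j + c - p) % 2 = 1)) =
          (List.range (j + c + 1)).map (bit (z / b)) := by
        refine List.map_congr_left fun p hp => ?_
        rw [List.mem_range] at hp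
        rw [bit_pre hp]
        rfl
      simp only [Nat.unpair_pair]
      rw [h4]
      exact h1
    · rw [bit_eq]
      rcases Nat.mod_two_eq_zero_or_one (pre (z / a) (j + 1)) with h5 | h5
      · rw [h5]; rfl
      · rw [h5]; rfl
  obtain ⟨e, he⟩ : ∃ e, 3 * a ≤ 2 ^ e := ⟨3 * a, le_two_pow _⟩
  have hδ : (1 : ℝ) - (1 / 2) ^ (c + e) < 1 := by
    have : (0 : ℝ) < (1 / 2) ^ (c + e) := by positivity
    linarith
  have hδ0 : (0 : ℝ) ≤ 1 - (1 / 2) ^ (c + e) := by
    have : ((1 : ℝ) / 2) ^ (c + e) ≤ 1 := pow_le_one₀ (by norm_num) (by norm_num)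
    linarith
  obtain ⟨J, hJ⟩ := exists_pow_lt_of_lt_one (show (0 : ℝ) < 1 / 2 by norm_num) hδ
  have htest : IsMLTest (fun k m A => m = J * (k + a) * (c + e) + c ∧ A < a * 2 ^ m ∧
      good h a b c (J * (k + a) * (c + e)) A) := by
    constructor
    · refine repred3 (P := fun k m A => m = J * (k + a) * (c + e) + c ∧ A < a * 2 ^ m ∧
        good h a b c (J * (k + a) * (c + e)) A) ?_
      have h1 : CF (fun v : Fin 3 → ℕ => J * (v 0 + a) * (c + e)) :=
        ((CF.const J).mul ((CF.var 0).add (CF.const a))).mul (CF.const (c + e))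
      exact (D1.eq (CF.var 1) (h1.add (CF.const c))).pos.and
        ((D1.lt (CF.var 2) ((CF.const a).mul ((CF.const 2).pow (CF.var 1)))).pos.and
          (good_S1 hh a b c h1 (CF.var 2)))
    · intro k
      have h1 : comp (fun k m A => m = J * (k + a) * (c + e) + c ∧ A < a * 2 ^ m ∧
          good h a b c (J * (k + a) * (c + e)) A) k ⊆
          goodSet h a b c (J * (k + a) * (c + e)) := by
        rintro y ⟨n, A, ⟨rfl, hA, hg⟩, hy⟩
        exact ⟨A, hA, hg, hy⟩
      refine (measure_mono h1).trans ((volume_goodSet h (J * (k + a)) ha he (hab c)).trans ?_)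
      refine ENNReal.ofReal_le_ofReal ?_
      rw [pow_mul]
      have h2 : ((1 - ((1 : ℝ) / 2) ^ (c + e)) ^ J) ^ (k + a) ≤ (1 / 2) ^ (k + a) :=
        pow_le_pow_left₀ (pow_nonneg hδ0 _) hJ.le _
      have h3 : (a : ℝ) ≤ 2 ^ a := by exact_mod_cast le_two_pow a
      have h4 : (0 : ℝ) ≤ (1 / 2) ^ (k + a) := by positivity
      calc (a : ℝ) * ((1 - ((1 : ℝ) / 2) ^ (c + e)) ^ J) ^ (k + a)
          ≤ 2 ^ a * (1 / 2) ^ (k + a) := by
            refine mul_le_mul h3 h2 (pow_nonneg (pow_nonneg hδ0 _) _) (by positivity)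
        _ = (1 / 2) ^ k * (2 ^ a * (1 / 2) ^ a) := by rw [pow_add]; ring
        _ = (1 / 2) ^ k := by rw [half_pow_mul, mul_one]
  obtain ⟨k, hk⟩ := hr _ htest
  apply hk
  refine ⟨_, pre z (J * (k + a) * (c + e) + c), ⟨rfl, ?_, hgood _⟩,
    (mem_dyadic_iff hz0 _ _).2 rfl⟩
  unfold pre
  rw [Nat.floor_lt (by positivity)]
  push_cast
  have h5 : (0 : ℝ) < 2 ^ (J * (k + a) * (c + e) + c) := by positivity
  rw [mul_comm (a : ℝ)]
  exact mul_lt_mul_of_pos_left hza h5

end Pool.Agent.Y537.OM
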