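import Pool.Agent.Y537.OM.Mult
import Pool.Agent.Helper626.Rand.Exist
import Mathlib.NumberTheory.Padics.PadicVal.Basic
import Mathlib.Data.Nat.Nth
import Mathlib.Data.Nat.PrimeFin

set_option autoImplicit false

/-!
# The lattice of finitely supported integer vectors in the sw-degrees of `Ω`-numbers
-/

namespace Pool.Agent.Y537.OM

open Pool.Agent.Helper626 Pool.Agent.Helper626.Rand MeasureTheory

/-- The odd primes. -/
noncomputable def op (i : ℕ) : ℕ := Nat.nth Nat.Prime (i + 1)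

theorem op_prime (i : ℕ) : (op i).Prime := Nat.prime_nth_prime _

theorem op_inj {i j : ℕ} (h : op i = op j) : i = j := by
  have := Nat.nth_injective Nat.infinite_setOfPred_prime h
  omega

theorem op_ne_two (i : ℕ) : op i ≠ 2 := by
  intro h
  have h1 : Nat.nth Nat.Prime 0 = 2 := Nat.nth_prime_zero_eq_two
  have h2 : Nat.nth Nat.Prime (i + 1) = Nat.nth Nat.Prime 0 := by rw [h1]; exact h
  have := Nat.nth_injective Nat.infinite_setOfPred_prime h2
  omega

theorem op_odd (i : ℕ) : Odd (op i) := (op_prime i).odd_of_ne_two (op_ne_two i)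

/-- The product of powers of odd primes. -/
noncomputable def sv (v : ℕ →₀ ℤ) : ℚ := v.prod fun i n => (op i : ℚ) ^ n

theorem op_pos (i : ℕ) : (0 : ℚ) < op i := by exact_mod_cast (op_prime i).pos

theorem sv_pos (v : ℕ →₀ ℤ) : 0 < sv v :=
  Finset.prod_pos fun i _ => zpow_pos (op_pos i) _

theorem sv_zero : sv 0 = 1 := Finsupp.prod_zero_index

theorem sv_add (v w : ℕ →₀ ℤ) : sv (v + w) = sv v * sv w :=
  Finsupp.prod_add_index' (fun _ => zpow_zero _) fun i a b => zpow_add₀ (op_pos i).ne' a b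

theorem sv_val (i : ℕ) (v : ℕ →₀ ℤ) : padicValRat (op i) (sv v) = v i := by
  have : Fact (op i).Prime := ⟨op_prime i⟩
  induction v using Finsupp.induction_linear with
  | zero => rw [sv_zero]; simp
  | add v w hv hw =>
    rw [sv_add, padicValRat.mul (sv_pos v).ne' (sv_pos w).ne', hv, hw, Finsupp.add_apply]
  | single j n =>
    have h1 : sv (Finsupp.single j n) = (op j : ℚ) ^ n :=
      Finsupp.prod_single_index (zpow_zero _)
    rw [h1, padicValRat.zpow, padicValRat.of_nat]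
    by_cases hij : j = i
    · subst hij
      rw [Finsupp.single_eq_same, padicValNat_self]
      simp
    · rw [Finsupp.single_eq_of_ne (fun h => hij h.symm)]
      have : Fact (op j).Prime := ⟨op_prime j⟩
      rw [padicValNat_primes (fun h => hij (op_inj h).symm)]
      simp

theorem sv_iff (v w : ℕ →₀ ℤ) (a b : ℤ) :
    (∃ (m : ℕ) (k : ℤ), Odd m ∧ sv w * 2 ^ b = sv v * 2 ^ a * m * 2 ^ k) ↔ v ≤ w := by
  constructor
  · rintro ⟨m, k, hm, h⟩ i
    have : Fact (op i).Prime := ⟨op_prime i⟩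
    have hm0 : (m : ℚ) ≠ 0 := by
      rcases hm with ⟨i, rfl⟩
      positivity
    have h2 : ∀ k : ℤ, padicValRat (op i) ((2 : ℚ) ^ k) = 0 := by
      intro k
      rw [padicValRat.zpow]
      have h3 : padicValRat (op i) (2 : ℚ) = 0 := by
        have h4 := padicValRat.of_nat (p := op i) (n := 2)
        have : Fact (Nat.Prime 2) := ⟨Nat.prime_two⟩
        rw [padicValNat_primes (op_ne_two i)] at h4
        exact_mod_cast h4
      rw [h3, mul_zero]
    have z2 : ∀ k : ℤ, (2 : ℚ) ^ k ≠ 0 := fun k => zpow_ne_zero _ (by norm_num)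
    have h4 := congrArg (padicValRat (op i)) h
    rw [padicValRat.mul (sv_pos w).ne' (z2 _),
      padicValRat.mul (mul_ne_zero (mul_ne_zero (sv_pos v).ne' (z2 _)) hm0) (z2 _),
      padicValRat.mul (mul_ne_zero (sv_pos v).ne' (z2 _)) hm0,
      padicValRat.mul (sv_pos v).ne' (z2 _), h2, h2, h2, sv_val, sv_val, padicValRat.of_nat] at h4
    omega
  · intro h
    have h1 : ∀ i, 0 ≤ (w - v) i := fun i => by
      rw [Finsupp.sub_apply]
      have := h i
      omega
    refine ⟨∏ i ∈ (w - v).support, op i ^ ((w - v) i).toNat, b - a, ?_, ?_⟩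
    · refine Finset.prod_induction _ Odd (fun _ _ => Odd.mul) odd_one fun i _ => (op_odd i).pow
    · have h2 : ((∏ i ∈ (w - v).support, op i ^ ((w - v) i).toNat : ℕ) : ℚ) = sv (w - v) := by
        rw [Nat.cast_prod]
        unfold sv Finsupp.prod
        refine Finset.prod_congr rfl fun i _ => ?_
        rw [Nat.cast_pow, ← zpow_natCast, Int.toNat_of_nonneg (h1 i)]
      have h3 : sv w = sv v * sv (w - v) := by
        rw [← sv_add]
        congr 1
        abel
      have h4 : (2 : ℚ) ^ b = 2 ^ a * 2 ^ (b - a) := by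
        rw [← zpow_add₀ (by norm_num)]
        congr 1
        ring
      rw [h2, h3, h4]
      ring

theorem exists_scale (x : ℝ) (v : ℕ →₀ ℤ) (hx1 : x < 1) :
    ∃ a : ℤ, (((sv v * 2 ^ a : ℚ) : ℝ) * x < 1) ∧ (v = 0 → a = 0) := by
  by_cases hv : v = 0
  · subst hv
    refine ⟨0, ?_, fun _ => rfl⟩
    rw [sv_zero]
    simpa using hx1
  · obtain ⟨j, hj⟩ := pow_unbounded_of_one_lt (((sv v : ℚ) : ℝ) * x) (show (1 : ℝ) < 2 by norm_num)
    refine ⟨-(j : ℤ), ?_, fun h => absurd h hv⟩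
    push_cast
    rw [zpow_neg, zpow_natCast]
    have h1 : (0 : ℝ) < 2 ^ j := by positivity
    rw [mul_right_comm, ← div_eq_mul_inv, div_lt_one h1]
    exact hj

theorem TTle_div {y : ℝ} (hy1 : y < 1) (m : ℕ) : TTle (y / m) y := by
  refine ⟨fun n => List.range (n + 1), fun q => decide (num q.2 / m % 2 = 1), ?_, ?_, fun n => ?_⟩
  · exact (Primrec.list_range.comp Primrec.succ).to_comp
  · have h1 : Primrec (fun q : ℕ × List Bool => Nat.bodd (num q.2 / m)) :=
      Primrec.nat_bodd.comp (Primrec.nat_div.comp (num_primrec.comp Primrec.snd)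
        (Primrec.const m))
    exact h1.to_comp.of_eq fun q => (bodd_eq _).symm
  · rw [bit_eq, pre_natdiv]
    simp only
    rw [num_range hy1]

/-- **Rational multiples of an `Ω`-number.** -/
theorem main {x : ℝ} (hx : IsOmega x) :
    (∀ m : ℕ, 0 < m → IsOmega (x / m) ∧ TTle (x / m) x ∧ TTle x (x / m)) ∧
    (∀ q : ℚ, 0 < q → (q : ℝ) * x < 1 → IsOmega (q * x)) ∧
    (∀ q r : ℚ, 0 < q → 0 < r → (q : ℝ) * x < 1 → (r : ℝ) * x < 1 →
      (SWle (q * x) (r * x) ↔ ∃ (m : ℕ) (k : ℤ), Odd m ∧ r = q * m * 2 ^ k)) ∧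
    ∃ e : (ℕ →₀ ℤ) → ℝ, e 0 = x ∧ (∀ v, IsOmega (e v)) ∧ ∀ v w, SWle (e v) (e w) ↔ v ≤ w := by
  have hr := hx.2.2.1
  have hx0 : 0 < x := by
    refine lt_of_le_of_ne hx.1 fun h => ?_
    exact ne_rat hr 0 1 one_pos (by rw [← h]; simp)
  have hx1 : x < 1 := by
    refine lt_of_le_of_ne hx.2.1 fun h => ?_
    exact ne_rat hr 1 1 one_pos (by rw [h]; simp)
  refine ⟨fun m hm => ?_, fun q hq h => omega_mul hx hq h,
    fun q r hq hr0 h1 h2 => SWle_iff hx0 hr hq hr0 h1 h2, ?_⟩
  · have hm' : (1 : ℝ) ≤ m := by exact_mod_cast hm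
    have h1 : IsOmega (x / m) :=
      ⟨by positivity, (div_le_self hx0.le hm').trans hx1.le, divNat hr hm, leftCE_div hx.2.2.2 hm⟩
    exact ⟨h1, TTle_div hx1 m, TTle_of_TTle hx h1 (TTle_div hx1 m)⟩
  choose a ha1 ha0 using fun v => exists_scale x v hx1
  have hpos : ∀ v, 0 < sv v * 2 ^ a v := fun v => mul_pos (sv_pos v) (zpow_pos (by norm_num) _)
  refine ⟨fun v => ((sv v * 2 ^ a v : ℚ) : ℝ) * x, ?_, fun v => omega_mul hx (hpos v) (ha1 v),
    fun v w => ?_⟩
  · simp only
    rw [ha0 0 rfl, sv_zero]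
    simp
  · rw [SWle_iff hx0 hr (hpos v) (hpos w) (ha1 v) (ha1 w)]
    exact sv_iff v w (a v) (a w)

end Pool.Agent.Y537.OM
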