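import Pool.Agent.Y537.OM.Core

set_option autoImplicit false

/-!
# Rational multiples of random reals and of `Ω`-numbers
-/

namespace Pool.Agent.Y537.OM

open Pool.Agent.Helper626 Pool.Agent.Helper626.Rand MeasureTheory

theorem divNat {x : ℝ} (h : MLRandom x) {m : ℕ} (hm : 0 < m) : MLRandom (x / m) := by
  have hm' : (0 : ℝ) < m := by exact_mod_cast hm
  intro W hW
  have htest : IsMLTest (fun k n c => W (k + m) n (c / m)) := by
    constructor
    · have h1 : Computable (fun t : ℕ × ℕ × ℕ => (t.1 + m, t.2.1, t.2.2 / m)) := by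
        have h2 : Primrec (fun t : ℕ × ℕ × ℕ => (t.1 + m, t.2.1, t.2.2 / m)) := by
          refine Primrec.pair (Primrec.nat_add.comp Primrec.fst (Primrec.const m))
            (Primrec.pair (Primrec.fst.comp Primrec.snd)
              (Primrec.nat_div.comp (Primrec.snd.comp Primrec.snd) (Primrec.const m)))
        exact h2.to_comp
      exact hW.1.comp h1
    · intro k
      have h1 : comp (fun k n c => W (k + m) n (c / m)) k =
          (fun z => z * (1 / (m : ℝ))) ⁻¹' (comp W (k + m)) := by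
        ext z
        rw [Set.mem_preimage, mem_comp_iff, mem_comp_iff]
        have h2 : z * (1 / (m : ℝ)) = z / m := by ring
        rw [h2]
        simp only [pre_natdiv]
        have h3 : 0 ≤ z / m ↔ 0 ≤ z := by
          rw [le_div_iff₀ hm', zero_mul]
        rw [h3]
      rw [h1, Real.volume_preimage_mul_right (by positivity)]
      have h2 := hW.2 (k + m)
      calc _ ≤ ENNReal.ofReal |(1 / (m : ℝ))⁻¹| * ENNReal.ofReal ((1 / 2) ^ (k + m)) := by gcongr
        _ = ENNReal.ofReal (|(1 / (m : ℝ))⁻¹| * (1 / 2) ^ (k + m)) :=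
            (ENNReal.ofReal_mul (abs_nonneg _)).symm
        _ ≤ _ := by
            refine ENNReal.ofReal_le_ofReal ?_
            have h3 : |(1 / (m : ℝ))⁻¹| = m := by
              rw [one_div, inv_inv, abs_of_pos hm']
            rw [h3, pow_add]
            have h4 : (m : ℝ) ≤ 2 ^ m := by exact_mod_cast le_two_pow m
            have h5 := half_pow_mul m
            have h6 : (0 : ℝ) < (1 / 2) ^ k := by positivity
            have h7 : (0 : ℝ) < (1 / 2) ^ m := by positivity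
            calc (m : ℝ) * ((1 / 2) ^ k * (1 / 2) ^ m)
                ≤ 2 ^ m * ((1 / 2) ^ k * (1 / 2) ^ m) := by gcongr
              _ = (1 / 2) ^ k * (2 ^ m * (1 / 2) ^ m) := by ring
              _ = (1 / 2) ^ k := by rw [h5, mul_one]
  obtain ⟨k, hk⟩ := h _ htest
  refine ⟨k + m, fun hcon => hk ?_⟩
  rw [mem_comp_iff] at hcon ⊢
  obtain ⟨h0, n, hn⟩ := hcon
  rw [pre_natdiv] at hn
  refine ⟨?_, n, hn⟩
  have h1 := mul_nonneg h0 hm'.le
  rwa [div_mul_cancel₀ _ hm'.ne'] at h1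

/-- Random reals are not rational. -/
theorem ne_rat {x : ℝ} (h : MLRandom x) (a b : ℕ) (hb : 0 < b) : x ≠ (a : ℝ) / b := by
  rintro rfl
  have hpre : ∀ k, pre ((a : ℝ) / b) k = 2 ^ k * a / b := by
    intro k
    rw [pre_natdiv]
    congr 1
    unfold pre
    have : (2 : ℝ) ^ k * (a : ℝ) = ((2 ^ k * a : ℕ) : ℝ) := by push_cast; ring
    rw [this, Nat.floor_natCast]
  have htest : IsMLTest (fun k m c => m = k ∧ c = 2 ^ k * a / b) := by
    constructor
    · refine repred3 (P := fun k m c => m = k ∧ c = 2 ^ k * a / b) ?_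
      exact ((D1.eq (CF.var 1) (CF.var 0)).and
        (D1.eq (CF.var 2) ((((CF.const 2).pow (CF.var 0)).mul (CF.const a)).div
          (CF.const b)))).pos
    · intro k
      have h1 : comp (fun k m c => m = k ∧ c = 2 ^ k * a / b) k = dyadic k (2 ^ k * a / b) := by
        ext x
        simp [comp]
      rw [h1, volume_dyadic]
  obtain ⟨k, hk⟩ := h _ htest
  exact hk ⟨k, _, ⟨rfl, rfl⟩, (mem_dyadic_iff (by positivity) _ _).2 (hpre k)⟩

theorem S1_of_test {W : ℕ → ℕ → ℕ → Prop}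
    (h : REPred (fun t : ℕ × ℕ × ℕ => W t.1 t.2.1 t.2.2)) {n : ℕ}
    {F G H : (Fin n → ℕ) → ℕ} (hF : CF F) (hG : CF G) (hH : CF H) :
    S1 true (fun v => W (F v) (G v) (H v)) := by
  have h1 : REPred (fun p : ℕ × ℕ => W p.1 p.2.unpair.1 p.2.unpair.2) := by
    have h2 : Computable (fun p : ℕ × ℕ => (p.1, p.2.unpair.1, p.2.unpair.2)) := by
      have h3 : Primrec (fun p : ℕ × ℕ => (p.1, p.2.unpair.1, p.2.unpair.2)) :=
        Primrec.pair Primrec.fst (Primrec.pair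
          (Primrec.fst.comp (Primrec.unpair.comp Primrec.snd))
          (Primrec.snd.comp (Primrec.unpair.comp Primrec.snd)))
      exact h3.to_comp
    exact h.comp h2
  have h3 := S1_of_repred2 (Q := fun s t => W s t.unpair.1 t.unpair.2) h1
  have h4 := S1_sub h3 (n := n) (F := ![F, fun v => Nat.pair (G v) (H v)]) (by
    intro i
    fin_cases i
    · exact hF
    · exact hG.pair hH)
  refine h4.of_iff fun v => ?_
  simp

theorem mulNat {x : ℝ} (hx0 : 0 ≤ x) (h : MLRandom x) {m : ℕ} (hm : 0 < m) :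
    MLRandom (x * m) := by
  have hm' : (0 : ℝ) < m := by exact_mod_cast hm
  intro W hW
  have htest : IsMLTest (fun k n' c' => ∃ n c, W k n c ∧ c * 2 ^ n' ≤ m * 2 ^ n * c' ∧
      m * 2 ^ n * (c' + 1) ≤ (c + 1) * 2 ^ n') := by
    constructor
    · refine repred3 (P := fun k n' c' => ∃ n c, W k n c ∧ c * 2 ^ n' ≤ m * 2 ^ n * c' ∧
        m * 2 ^ n * (c' + 1) ≤ (c + 1) * 2 ^ n') ?_
      refine S1_ex ?_
      refine S1_ex ?_
      have v0 : CF (fun v : Fin 5 → ℕ => v 0) := CF.var 0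
      have v1 : CF (fun v : Fin 5 → ℕ => v 1) := CF.var 1
      have v2 : CF (fun v : Fin 5 → ℕ => v 2) := CF.var 2
      have v3 : CF (fun v : Fin 5 → ℕ => v 3) := CF.var 3
      have v4 : CF (fun v : Fin 5 → ℕ => v 4) := CF.var 4
      have h1 : S1 true (fun v : Fin 5 → ℕ => W (v 0) (v 3) (v 4) ∧
          v 4 * 2 ^ v 1 ≤ m * 2 ^ v 3 * v 2 ∧ m * 2 ^ v 3 * (v 2 + 1) ≤ (v 4 + 1) * 2 ^ v 1) := by
        refine (S1_of_test hW.1 v0 v3 v4).and (D1.and ?_ ?_).pos
        · exact D1.le (v4.mul ((CF.const 2).pow v1)) (((CF.const m).mul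
            ((CF.const 2).pow v3)).mul v2)
        · exact D1.le (((CF.const m).mul ((CF.const 2).pow v3)).mul (v2.add (CF.const 1)))
            ((v4.add (CF.const 1)).mul ((CF.const 2).pow v1))
      exact h1
    · intro k
      have h1 : comp (fun k n' c' => ∃ n c, W k n c ∧ c * 2 ^ n' ≤ m * 2 ^ n * c' ∧
          m * 2 ^ n * (c' + 1) ≤ (c + 1) * 2 ^ n') k ⊆ (fun z => z * (m : ℝ)) ⁻¹' (comp W k) := by
        rintro z ⟨n', c', ⟨n, c, hw, h2, h3⟩, hz⟩
        refine ⟨n, c, hw, ?_⟩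
        unfold dyadic at hz ⊢
        have p1 : (0 : ℝ) < 2 ^ n := by positivity
        have p2 : (0 : ℝ) < 2 ^ n' := by positivity
        rw [Set.mem_Ico, div_le_iff₀ p2, lt_div_iff₀ p2] at hz
        rw [Set.mem_Ico, div_le_iff₀ p1, lt_div_iff₀ p1]
        have h2' : (c : ℝ) * 2 ^ n' ≤ m * 2 ^ n * c' := by exact_mod_cast h2
        have h3' : (m : ℝ) * 2 ^ n * (c' + 1) ≤ (c + 1) * 2 ^ n' := by exact_mod_cast h3
        have p3 : (0 : ℝ) < m * 2 ^ n := by positivity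
        constructor
        · have h4 : (m : ℝ) * 2 ^ n * c' ≤ m * 2 ^ n * (z * 2 ^ n') :=
            mul_le_mul_of_nonneg_left hz.1 p3.le
          have h5 : (c : ℝ) * 2 ^ n' ≤ (z * m * 2 ^ n) * 2 ^ n' := by
            calc (c : ℝ) * 2 ^ n' ≤ m * 2 ^ n * (z * 2 ^ n') := h2'.trans h4
              _ = _ := by ring
          exact le_of_mul_le_mul_right h5 p2
        · have h4 : (m : ℝ) * 2 ^ n * (z * 2 ^ n') < m * 2 ^ n * (c' + 1) :=
            mul_lt_mul_of_pos_left hz.2 p3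
          have h5 : (z * m * 2 ^ n) * 2 ^ n' < (c + 1) * 2 ^ n' := by
            calc (z * m * 2 ^ n) * 2 ^ n' = (m : ℝ) * 2 ^ n * (z * 2 ^ n') := by ring
              _ < _ := h4.trans_le h3'
          exact lt_of_mul_lt_mul_right h5 p2.le
      refine (measure_mono h1).trans ?_
      rw [Real.volume_preimage_mul_right hm'.ne']
      have h2 : ENNReal.ofReal |(m : ℝ)⁻¹| ≤ 1 := by
        rw [ENNReal.ofReal_le_one, abs_of_pos (by positivity)]
        exact inv_le_one_of_one_le₀ (by exact_mod_cast hm)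
      calc _ ≤ 1 * volume (comp W k) := by gcongr
        _ = volume (comp W k) := one_mul _
        _ ≤ _ := hW.2 k
  obtain ⟨k, hk⟩ := h _ htest
  refine ⟨k, fun hcon => hk ?_⟩
  obtain ⟨n, c, hw, hz⟩ := hcon
  unfold dyadic at hz
  have p1 : (0 : ℝ) < 2 ^ n := by positivity
  rw [Set.mem_Ico, div_le_iff₀ p1, lt_div_iff₀ p1] at hz
  have hlt : (c : ℝ) < x * m * 2 ^ n := by
    refine lt_of_le_of_ne hz.1 fun heq => ?_
    refine ne_rat h c (m * 2 ^ n) (by positivity) ?_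
    rw [eq_div_iff (by positivity)]
    push_cast
    linarith
  -- a small dyadic interval
  obtain ⟨δ, hδ0, hδ1, hδ2⟩ : ∃ δ : ℝ, 0 < δ ∧ m * 2 ^ n * δ ≤ x * m * 2 ^ n - c ∧
      m * 2 ^ n * δ ≤ c + 1 - x * m * 2 ^ n := by
    have p3 : (0 : ℝ) < m * 2 ^ n := by positivity
    refine ⟨min (x * m * 2 ^ n - c) (c + 1 - x * m * 2 ^ n) / (m * 2 ^ n), ?_, ?_, ?_⟩
    · refine div_pos (lt_min (by linarith) (by linarith)) p3
    · rw [mul_div_cancel₀ _ p3.ne']
      exact min_le_left _ _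
    · rw [mul_div_cancel₀ _ p3.ne']
      exact min_le_right _ _
  obtain ⟨n', hn'⟩ := exists_pow_lt_of_lt_one hδ0 (show (1 / 2 : ℝ) < 1 by norm_num)
  have p2 : (0 : ℝ) < 2 ^ n' := by positivity
  have hn2 : 1 < δ * 2 ^ n' := by
    have h5 := half_pow_mul n'
    have h6 : (1 / 2 : ℝ) ^ n' * 2 ^ n' < δ * 2 ^ n' := mul_lt_mul_of_pos_right hn' p2
    linarith
  have hx := (mem_dyadic_iff hx0 n' (pre x n')).2 rfl
  refine ⟨n', pre x n', ⟨n, c, hw, ?_, ?_⟩, hx⟩
  · unfold dyadic at hx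
    rw [Set.mem_Ico, div_le_iff₀ p2, lt_div_iff₀ p2] at hx
    have h7 : (c : ℝ) * 2 ^ n' ≤ m * 2 ^ n * (pre x n' : ℝ) := by
      have h8 : x * 2 ^ n' - 1 ≤ (pre x n' : ℝ) := by linarith [hx.2]
      have p3 : (0 : ℝ) < m * 2 ^ n := by positivity
      have h9 : (m : ℝ) * 2 ^ n * (x * 2 ^ n' - 1) ≤ m * 2 ^ n * (pre x n' : ℝ) :=
        mul_le_mul_of_nonneg_left h8 p3.le
      have h10 : (m : ℝ) * 2 ^ n * δ * 2 ^ n' ≤ (x * m * 2 ^ n - c) * 2 ^ n' :=
        mul_le_mul_of_nonneg_right hδ1 p2.le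
      have h11 : (m : ℝ) * 2 ^ n * 1 ≤ m * 2 ^ n * (δ * 2 ^ n') :=
        mul_le_mul_of_nonneg_left hn2.le p3.le
      nlinarith
    exact_mod_cast h7
  · unfold dyadic at hx
    rw [Set.mem_Ico, div_le_iff₀ p2, lt_div_iff₀ p2] at hx
    have h7 : (m : ℝ) * 2 ^ n * ((pre x n' : ℝ) + 1) ≤ (c + 1) * 2 ^ n' := by
      have p3 : (0 : ℝ) < m * 2 ^ n := by positivity
      have h9 : (m : ℝ) * 2 ^ n * ((pre x n' : ℝ) + 1) ≤ m * 2 ^ n * (x * 2 ^ n' + 1) :=
        mul_le_mul_of_nonneg_left (by linarith [hx.1]) p3.le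
      have h10 : (m : ℝ) * 2 ^ n * δ * 2 ^ n' ≤ (c + 1 - x * m * 2 ^ n) * 2 ^ n' :=
        mul_le_mul_of_nonneg_right hδ2 p2.le
      have h11 : (m : ℝ) * 2 ^ n * 1 ≤ m * 2 ^ n * (δ * 2 ^ n') :=
        mul_le_mul_of_nonneg_left hn2.le p3.le
      nlinarith
    exact_mod_cast h7

theorem comp_div (m : ℕ) : Computable (fun p : ℕ × ℕ => (m * p.1, p.2)) := by
  have h2 : Primrec (fun p : ℕ × ℕ => (m * p.1, p.2)) :=
    Primrec.pair (Primrec.nat_mul.comp (Primrec.const m) Primrec.fst) Primrec.snd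
  exact h2.to_comp

theorem comp_mul (m : ℕ) : Computable (fun p : ℕ × ℕ => (p.1, m * (p.2 + 1) - 1)) := by
  have h2 : Primrec (fun p : ℕ × ℕ => (p.1, m * (p.2 + 1) - 1)) :=
    Primrec.pair Primrec.fst (Primrec.nat_sub.comp (Primrec.nat_mul.comp (Primrec.const m)
      (Primrec.succ.comp Primrec.snd)) (Primrec.const 1))
  exact h2.to_comp

theorem iff_div {x : ℝ} {m : ℕ} (hm : 0 < m) (p : ℕ × ℕ) :
    ((m * p.1 : ℕ) : ℝ) / ((p.2 : ℝ) + 1) < x ↔ (p.1 : ℝ) / ((p.2 : ℝ) + 1) < x / m := by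
  have hm' : (0 : ℝ) < m := by exact_mod_cast hm
  have h2 : (0 : ℝ) < (p.2 : ℝ) + 1 := by positivity
  rw [lt_div_iff₀ hm', Nat.cast_mul]
  have h3 : (m : ℝ) * (p.1 : ℝ) / ((p.2 : ℝ) + 1) = (p.1 : ℝ) / ((p.2 : ℝ) + 1) * m := by ring
  rw [h3]

theorem iff_mul {x : ℝ} {m : ℕ} (hm : 0 < m) (p : ℕ × ℕ) :
    (p.1 : ℝ) / (((m * (p.2 + 1) - 1 : ℕ) : ℝ) + 1) < x ↔
      (p.1 : ℝ) / ((p.2 : ℝ) + 1) < x * m := by
  have hm' : (0 : ℝ) < m := by exact_mod_cast hm
  have h2 : (0 : ℝ) < (p.2 : ℝ) + 1 := by positivity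
  have h3 : (((m * (p.2 + 1) - 1 : ℕ) : ℝ) + 1) = m * ((p.2 : ℝ) + 1) := by
    rw [Nat.cast_sub (Nat.mul_pos hm (Nat.succ_pos _))]
    push_cast
    ring
  rw [h3, div_lt_iff₀ (by positivity), div_lt_iff₀ h2, mul_assoc]

theorem repred_comp {α β : Type} [Primcodable α] [Primcodable β] {p : β → Prop} (h : REPred p)
    {f : α → β} (hf : Computable f) : REPred (fun a => p (f a)) := Partrec.comp h hf

theorem leftCE_div {x : ℝ} (h : LeftCE x) {m : ℕ} (hm : 0 < m) : LeftCE (x / m) := by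
  have h1 := repred_comp (p := fun p : ℕ × ℕ => (p.1 : ℝ) / ((p.2 : ℝ) + 1) < x) h (comp_div m)
  have h2 := REPred.of_eq h1 fun p => iff_div hm p
  exact h2

theorem leftCE_mul {x : ℝ} (h : LeftCE x) {m : ℕ} (hm : 0 < m) : LeftCE (x * m) := by
  have h1 := repred_comp (p := fun p : ℕ × ℕ => (p.1 : ℝ) / ((p.2 : ℝ) + 1) < x) h (comp_mul m)
  have h2 := REPred.of_eq h1 fun p => iff_mul hm p
  exact h2

/-- Rational multiples of `Ω`-numbers. -/
theorem omega_mul {x : ℝ} (h : IsOmega x) {q : ℚ} (hq : 0 < q) (h1 : (q : ℝ) * x < 1) :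
    IsOmega (q * x) := by
  obtain ⟨h0, -, hr, hl⟩ := h
  have hn : 0 < q.num.toNat := by
    have := Rat.num_pos.2 hq
    omega
  have e1 : (q : ℝ) * x = x * (q.num.toNat : ℕ) / (q.den : ℕ) := by
    have h2 : ((q.num.toNat : ℕ) : ℝ) = ((q.num : ℤ) : ℝ) := by
      have h3 : ((q.num.toNat : ℕ) : ℤ) = q.num := Int.toNat_of_nonneg (Rat.num_pos.2 hq).le
      exact_mod_cast congrArg (fun t : ℤ => (t : ℝ)) h3
    rw [h2]
    have h4 : (q : ℝ) = (q.num : ℝ) / (q.den : ℝ) := by exact_mod_cast (Rat.num_div_den q).symm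
    rw [h4]
    ring
  have hq' : (0 : ℝ) < q := by exact_mod_cast hq
  refine ⟨mul_nonneg hq'.le h0, h1.le, ?_, ?_⟩
  · rw [e1]
    exact divNat (mulNat h0 hr hn) q.den_pos
  · rw [e1]
    exact leftCE_div (leftCE_mul hl hn) q.den_pos

theorem SWle_of {y : ℝ} (hy1 : y < 1) (m j : ℕ) : SWle (2 ^ j * (y / m)) y := by
  refine ⟨j, fun q => Part.some (decide (num q.2 / m % 2 = 1)), ?_, ?_⟩
  · have h1 : Primrec (fun q : ℕ × List Bool => Nat.bodd (num q.2 / m)) :=
      Primrec.nat_bodd.comp (Primrec.nat_div.comp (num_primrec.comp Primrec.snd)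
        (Primrec.const m))
    have h2 : Computable (fun q : ℕ × List Bool => decide (num q.2 / m % 2 = 1)) :=
      h1.to_comp.of_eq fun q => (bodd_eq _).symm
    exact h2.partrec
  · intro n
    rw [Part.mem_some_iff, num_range hy1, bit_eq]
    have h1 : pre (2 ^ j * (y / m)) (n + 1) = pre (y / m) (n + j + 1) := by
      unfold pre
      congr 1
      rw [← mul_assoc, ← pow_add]
      congr 2
      omega
    rw [h1, pre_natdiv]

/-- **The sw-order of the rational multiples of a random real.** -/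
theorem SWle_iff {x : ℝ} (hx0 : 0 < x) (hr : MLRandom x) {q r : ℚ} (hq : 0 < q) (hr0 : 0 < r)
    (hq1 : (q : ℝ) * x < 1) (hr1 : (r : ℝ) * x < 1) :
    SWle (q * x) (r * x) ↔ ∃ (m : ℕ) (k : ℤ), Odd m ∧ r = q * m * 2 ^ k := by
  constructor
  · intro h
    have hp1 : 0 < q.num.toNat := by
      have := Rat.num_pos.2 hq
      omega
    have hp2 : 0 < r.num.toNat := by
      have := Rat.num_pos.2 hr0
      omega
    obtain ⟨p1, e1⟩ : ∃ p1, p1 = q.num.toNat := ⟨_, rfl⟩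
    obtain ⟨p2, e2⟩ : ∃ p2, p2 = r.num.toNat := ⟨_, rfl⟩
    obtain ⟨a1, f1⟩ : ∃ a1, a1 = q.den := ⟨_, rfl⟩
    obtain ⟨b1, f2⟩ : ∃ b1, b1 = r.den := ⟨_, rfl⟩
    rw [← e1] at hp1
    rw [← e2] at hp2
    have ha1 : 0 < a1 := by rw [f1]; exact q.den_pos
    have hb1 : 0 < b1 := by rw [f2]; exact r.den_pos
    have g1 : q = (p1 : ℚ) / a1 := by
      have h3 : ((q.num.toNat : ℕ) : ℤ) = q.num := Int.toNat_of_nonneg (Rat.num_pos.2 hq).le
      have h4 : ((p1 : ℕ) : ℚ) = (q.num : ℚ) := by rw [e1]; exact_mod_cast h3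
      rw [h4, f1, Rat.num_div_den]
    have g2 : r = (p2 : ℚ) / b1 := by
      have h3 : ((r.num.toNat : ℕ) : ℤ) = r.num := Int.toNat_of_nonneg (Rat.num_pos.2 hr0).le
      have h4 : ((p2 : ℕ) : ℚ) = (r.num : ℚ) := by rw [e2]; exact_mod_cast h3
      rw [h4, f2, Rat.num_div_den]
    have p1' : (0 : ℝ) < p1 := by exact_mod_cast hp1
    have p2' : (0 : ℝ) < p2 := by exact_mod_cast hp2
    have a1' : (0 : ℝ) < a1 := by exact_mod_cast ha1
    have b1' : (0 : ℝ) < b1 := by exact_mod_cast hb1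
    have i1 : (q : ℝ) * x = x * ((p1 * p2 : ℕ) : ℝ) / ((a1 * p2 : ℕ) : ℝ) := by
      rw [g1]
      push_cast
      field_simp
    have i2 : (r : ℝ) * x = x * ((p1 * p2 : ℕ) : ℝ) / ((b1 * p1 : ℕ) : ℝ) := by
      rw [g2]
      push_cast
      field_simp
    by_cases hab : ∀ k, ¬ (b1 * p1) ∣ (a1 * p2) * 2 ^ k
    · exfalso
      rw [i1, i2] at h
      refine not_SWle (z := x * ((p1 * p2 : ℕ) : ℝ)) (by positivity) (by positivity) ?_ hab
        (mulNat hx0.le hr (by positivity)) h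
      rw [i1, div_lt_one (by positivity)] at hq1
      exact hq1
    · push Not at hab
      obtain ⟨k, t, ht⟩ := hab
      have ht0 : t ≠ 0 := by
        rintro rfl
        rw [Nat.mul_zero] at ht
        exact (by positivity : (a1 * p2) * 2 ^ k ≠ 0) ht
      obtain ⟨i, m, hm, rfl⟩ := Nat.exists_eq_two_pow_mul_odd ht0
      refine ⟨m, (i : ℤ) - k, hm, ?_⟩
      have ht' : ((a1 : ℚ) * p2) * 2 ^ k = b1 * p1 * (2 ^ i * m) := by exact_mod_cast ht
      have q1 : (0 : ℚ) < p1 := by exact_mod_cast hp1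
      have q3 : (0 : ℚ) < a1 := by exact_mod_cast ha1
      have q4 : (0 : ℚ) < b1 := by exact_mod_cast hb1
      rw [g1, g2, zpow_sub₀ (by norm_num), zpow_natCast, zpow_natCast]
      field_simp
      linarith
  · rintro ⟨m, k, hm, rfl⟩
    have hm0 : (m : ℝ) ≠ 0 := by
      rcases hm with ⟨i, rfl⟩
      positivity
    rcases lt_or_ge k 0 with hk | hk
    · obtain ⟨j, hj⟩ := Int.eq_ofNat_of_zero_le (show 0 ≤ -k by omega)
      have hk' : k = -(j : ℤ) := by omega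
      have h1 := SWle_of hr1 m j
      have h2 : (2 : ℝ) ^ j * (((q * m * 2 ^ k : ℚ) : ℝ) * x / m) = q * x := by
        rw [hk']
        push_cast
        rw [zpow_neg, zpow_natCast]
        field_simp
      rwa [h2] at h1
    · obtain ⟨j, rfl⟩ := Int.eq_ofNat_of_zero_le hk
      have h1 := SWle_of hr1 (m * 2 ^ j) 0
      have h2 : (2 : ℝ) ^ 0 * (((q * m * 2 ^ ((j : ℕ) : ℤ) : ℚ) : ℝ) * x / ((m * 2 ^ j : ℕ) : ℝ)) =
          q * x := by
        push_cast
        rw [zpow_natCast]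
        field_simp
      rwa [h2] at h1

end Pool.Agent.Y537.OM
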